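import Mathlib
import Pool.Agent.W732.Cor.Stm2

/-!
Universal corona data: definitions and statements of the parts.
-/

set_option autoImplicit false

open Metric Set Filter Topology Complex
open scoped ContDiff

namespace Pool.Agent.W732.Ud

open Pool.Agent.W732.Cor (V mv tau)

/-- `N` corona data on `D` with constant `δ`. -/
structure Datum {E : Type} [NormedAddCommGroup E] [NormedSpace ℂ E] (N : ℕ) (δ : ℝ) (D : Set E)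
    (f : Fin N → E → ℂ) : Prop where
  hol : ∀ i, DifferentiableOn ℂ (f i) D
  bd : ∀ i, ∀ z ∈ D, ‖f i z‖ ≤ 1
  low : ∀ z ∈ D, δ ≤ ∑ i, ‖f i z‖

/-- pseudohyperbolic distance in the disc -/
noncomputable def ph (a w : ℂ) : ℝ := ‖(w - a) / (1 - starRingEnd ℂ a * w)‖

/-- the domains `U n` exhaust `H` -/
structure Exh {E : Type} [NormedAddCommGroup E] [NormedSpace ℂ E] (H : Set E) (U : ℕ → Set E) :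
    Prop where
  oH : IsOpen H
  oU : ∀ n, IsOpen (U n)
  sub : ∀ n, U n ⊆ H
  exh : ∀ K ⊆ H, IsCompact K → ∀ᶠ n in atTop, K ⊆ U n

/-- `H` is a scaling limit of `D`, with peak function `P`. -/
structure Appr {E E' : Type} [NormedAddCommGroup E] [NormedSpace ℂ E] [NormedAddCommGroup E']
    [NormedSpace ℂ E'] (D : Set E) (H : Set E') (U : ℕ → Set E') (ψ : ℕ → E' → E)
    (G : ℕ → E → E') (P : E → ℂ) : Prop where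
  oD : IsOpen D
  exh : Exh H U
  cH : IsPreconnected H
  nH : H.Nonempty
  dψ : ∀ n, DifferentiableOn ℂ (ψ n) (U n)
  mψ : ∀ n, MapsTo (ψ n) (U n) D
  dG : ∀ n, DifferentiableOn ℂ (G n) D
  mG : ∀ n, MapsTo (G n) D H
  lim : ∀ K ⊆ H, IsCompact K → TendstoUniformlyOn (fun n x => G n (ψ n x)) id atTop K
  dP : DifferentiableOn ℂ P D
  mP : ∀ z ∈ D, ‖P z‖ < 1
  limP : ∀ x ∈ H, Tendsto (fun n => P (ψ n x)) atTop (𝓝 1)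

/-- LU: locally uniform limits of holomorphic functions -/
def S_lu : Prop :=
  ∀ (E : Type) [NormedAddCommGroup E] [NormedSpace ℂ E] (H : Set E), IsOpen H →
    ∀ (f : ℕ → E → ℂ) (g : E → ℂ),
    (∀ x ∈ H, ∃ O ∈ 𝓝 x, ∀ᶠ n in atTop, DifferentiableOn ℂ (f n) (O ∩ H)) →
    TendstoLocallyUniformlyOn f g atTop H → DifferentiableOn ℂ g H

/-- MT: Montel's theorem on exhausting domains -/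
def S_mt : Prop :=
  ∀ (E : Type) [NormedAddCommGroup E] [NormedSpace ℂ E] [FiniteDimensional ℂ E] (H : Set E)
    (U : ℕ → Set E), Exh H U → ∀ (N : ℕ) (M : ℝ) (φ : ℕ → Fin N → E → ℂ),
    (∀ n i, DifferentiableOn ℂ (φ n i) (U n)) → (∀ n i, ∀ x ∈ U n, ‖φ n i x‖ ≤ M) →
    ∃ (s : ℕ → ℕ) (Φ : Fin N → E → ℂ), StrictMono s ∧ (∀ i, DifferentiableOn ℂ (Φ i) H) ∧
      (∀ i, ∀ x ∈ H, ‖Φ i x‖ ≤ M) ∧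
      ∀ i, ∀ K ⊆ H, IsCompact K → TendstoUniformlyOn (fun n => φ (s n) i) (Φ i) atTop K

/-- SP: the values of `P ∘ ψ n` on a compact set stay in a bounded hyperbolic ball -/
def S_sp : Prop :=
  ∀ (E E' : Type) [NormedAddCommGroup E] [NormedSpace ℂ E] [FiniteDimensional ℂ E]
    [NormedAddCommGroup E'] [NormedSpace ℂ E'] [FiniteDimensional ℂ E'] (D : Set E) (H : Set E')
    (U : ℕ → Set E') (ψ : ℕ → E' → E) (G : ℕ → E → E') (P : E → ℂ), Appr D H U ψ G P →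
    ∀ x₀ ∈ H, ∀ Q ⊆ H, IsCompact Q → ∃ ρ : ℝ, 0 < ρ ∧ ρ < 1 ∧
      ∀ᶠ n in atTop, ∀ x ∈ Q, ph (P (ψ n x₀)) (P (ψ n x)) ≤ ρ

/-- PK: the peak functions -/
def S_pk : Prop :=
  ∀ (μ : ℕ → ℂ), (∀ n, ‖μ n‖ < 1) → Tendsto μ atTop (𝓝 1) → ∀ s : ℕ → ℝ, (∀ k, 0 < s k) →
    (∀ k, s k < 1) → ∀ (L : ℕ → ℕ) (κ : ℝ), 0 < κ →
    ∃ (n : ℕ → ℕ) (p : ℕ → ℂ → ℂ), StrictMono n ∧ (∀ k, L k ≤ n k) ∧
      (∀ k, DifferentiableOn ℂ (p k) (ball 0 1)) ∧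
      (∀ x ∈ ball (0 : ℂ) 1, Summable (fun k => ‖p k x‖)) ∧
      (∀ x ∈ ball (0 : ℂ) 1, ∑' k, ‖p k x‖ ≤ 4) ∧
      (∀ r : ℝ, r < 1 → ∃ u : ℕ → ℝ, Summable u ∧ ∀ k, ∀ x : ℂ, ‖x‖ ≤ r → ‖p k x‖ ≤ u k) ∧
      ∀ k, ∀ x ∈ ball (0 : ℂ) 1, ph (μ (n k)) x < s k → ‖p k x - 1‖ ≤ κ / (k + 1) ∧
        ∑' l, (if l = k then 0 else ‖p l x‖) ≤ κ / (k + 1)

/-- BL: the Blaschke product -/
def S_bl : Prop :=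
  ∀ (ν : ℕ → ℂ) (M : ℕ → ℕ) (s : ℕ → ℝ), (∀ k, ‖ν k‖ < 1) → (∀ k, 0 < s k) → (∀ k, s k < 1) →
    (∀ k, Real.exp (-(1 / 2) ^ (k + 2)) ≤ s k ^ M k) →
    ∃ b : ℂ → ℂ, DifferentiableOn ℂ b (ball 0 1) ∧ (∀ x ∈ ball (0 : ℂ) 1, ‖b x‖ ≤ 1) ∧
      (∀ x ∈ ball (0 : ℂ) 1, (∀ k, s k ≤ ph (ν k) x) → 1 / 2 ≤ ‖b x‖) ∧
      ∀ k, ∀ x ∈ ball (0 : ℂ) 1, ‖b x‖ ≤ ph (ν k) x ^ M k

/-- DISC: both together -/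
def S_disc : Prop :=
  ∀ (μ : ℕ → ℂ), (∀ n, ‖μ n‖ < 1) → Tendsto μ atTop (𝓝 1) → ∀ ρ : ℕ → ℝ, (∀ k, 0 < ρ k) →
    (∀ k, ρ k < 1) → ∀ (L : ℕ → ℕ) (κ : ℝ), 0 < κ →
    ∃ (n : ℕ → ℕ) (b : ℂ → ℂ) (p : ℕ → ℂ → ℂ) (W : ℕ → Set ℂ), StrictMono n ∧ (∀ k, L k ≤ n k) ∧
      DifferentiableOn ℂ b (ball 0 1) ∧ (∀ x ∈ ball (0 : ℂ) 1, ‖b x‖ ≤ 1) ∧
      (∀ k, DifferentiableOn ℂ (p k) (ball 0 1)) ∧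
      (∀ x ∈ ball (0 : ℂ) 1, Summable (fun k => ‖p k x‖)) ∧
      (∀ x ∈ ball (0 : ℂ) 1, ∑' k, ‖p k x‖ ≤ 4) ∧
      (∀ r : ℝ, r < 1 → ∃ u : ℕ → ℝ, Summable u ∧ ∀ k, ∀ x : ℂ, ‖x‖ ≤ r → ‖p k x‖ ≤ u k) ∧
      (∀ k, ∀ x ∈ ball (0 : ℂ) 1, ph (μ (n k)) x ≤ ρ k → x ∈ W k ∧ ‖b x‖ ≤ 1 / (k + 1)) ∧
      (∀ x ∈ ball (0 : ℂ) 1, (∀ k, x ∉ W k) → 1 / 2 ≤ ‖b x‖) ∧
      ∀ k, ∀ x ∈ ball (0 : ℂ) 1, x ∈ W k → ‖p k x - 1‖ ≤ κ / (k + 1) ∧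
        ∑' l, (if l = k then 0 else ‖p l x‖) ≤ κ / (k + 1)

/-- SEP: a dense sequence of data, each one approached along a subsequence -/
def S_sep : Prop :=
  ∀ (E : Type) [NormedAddCommGroup E] [NormedSpace ℂ E] [FiniteDimensional ℂ E] (H : Set E),
    IsOpen H → ∀ (N : ℕ) (δ : ℝ), (∃ h : Fin N → E → ℂ, Datum N δ H h) →
    ∃ hh : ℕ → Fin N → E → ℂ, (∀ k, Datum N δ H (hh k)) ∧
      ∀ h : Fin N → E → ℂ, Datum N δ H h → ∃ s : ℕ → ℕ, StrictMono s ∧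
        ∀ i, ∀ K ⊆ H, IsCompact K → TendstoUniformlyOn (fun n => hh (s n) i) (h i) atTop K

/-- SUM: the sum `∑ p k (P z) * h k z` -/
def S_sum : Prop :=
  ∀ (E : Type) [NormedAddCommGroup E] [NormedSpace ℂ E] [FiniteDimensional ℂ E] (D : Set E)
    (P : E → ℂ) (p : ℕ → ℂ → ℂ) (W : ℕ → Set ℂ) (κ : ℝ) (h : ℕ → E → ℂ), IsOpen D →
    DifferentiableOn ℂ P D → (∀ z ∈ D, ‖P z‖ < 1) → (∀ k, DifferentiableOn ℂ (p k) (ball 0 1)) →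
    (∀ x ∈ ball (0 : ℂ) 1, Summable (fun k => ‖p k x‖)) →
    (∀ x ∈ ball (0 : ℂ) 1, ∑' k, ‖p k x‖ ≤ 4) →
    (∀ r : ℝ, r < 1 → ∃ u : ℕ → ℝ, Summable u ∧ ∀ k, ∀ x : ℂ, ‖x‖ ≤ r → ‖p k x‖ ≤ u k) →
    (∀ k, ∀ x ∈ ball (0 : ℂ) 1, x ∈ W k → ‖p k x - 1‖ ≤ κ / (k + 1) ∧
        ∑' l, (if l = k then 0 else ‖p l x‖) ≤ κ / (k + 1)) →
    (∀ k, DifferentiableOn ℂ (h k) D) → (∀ k, ∀ z ∈ D, ‖h k z‖ ≤ 1) →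
    DifferentiableOn ℂ (fun z => ∑' k, p k (P z) * h k z) D ∧
    (∀ z ∈ D, ‖∑' k, p k (P z) * h k z‖ ≤ 4) ∧
    ∀ k, ∀ z ∈ D, P z ∈ W k → ‖∑' l, p l (P z) * h l z - h k z‖ ≤ 2 * κ / (k + 1)

/-- UD: the universal datum -/
def S_ud : Prop :=
  ∀ (E E' : Type) [NormedAddCommGroup E] [NormedSpace ℂ E] [FiniteDimensional ℂ E]
    [NormedAddCommGroup E'] [NormedSpace ℂ E'] [FiniteDimensional ℂ E'] (D : Set E) (H : Set E')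
    (U : ℕ → Set E') (ψ : ℕ → E' → E) (G : ℕ → E → E') (P : E → ℂ), Appr D H U ψ G P →
    ∀ (N : ℕ) (δ : ℝ), 0 < δ → ∃ (F₀ : E → ℂ) (F : Fin N → E → ℂ),
      DifferentiableOn ℂ F₀ D ∧ (∀ i, DifferentiableOn ℂ (F i) D) ∧
      (∀ z ∈ D, ‖F₀ z‖ ≤ 1) ∧ (∀ i, ∀ z ∈ D, ‖F i z‖ ≤ 1) ∧
      (∀ z ∈ D, min (1 / 2) (δ / 8) ≤ ‖F₀ z‖ + ∑ i, ‖F i z‖) ∧
      ∀ h : Fin N → E' → ℂ, Datum N δ H h → ∃ s : ℕ → ℕ, StrictMono s ∧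
        (∀ K ⊆ H, IsCompact K → TendstoUniformlyOn (fun n x => F₀ (ψ (s n) x)) 0 atTop K) ∧
        ∀ i, ∀ K ⊆ H, IsCompact K →
          TendstoUniformlyOn (fun n x => 4 * F i (ψ (s n) x)) (h i) atTop K

/-- LIM: passage to the limit -/
def S_lim : Prop :=
  ∀ (E E' : Type) [NormedAddCommGroup E] [NormedSpace ℂ E] [FiniteDimensional ℂ E]
    [NormedAddCommGroup E'] [NormedSpace ℂ E'] [FiniteDimensional ℂ E'] (D : Set E) (H : Set E')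
    (U : ℕ → Set E') (ψ : ℕ → E' → E) (G : ℕ → E → E') (P : E → ℂ), Appr D H U ψ G P →
    ∀ (N : ℕ) (F₀ : E → ℂ) (F : Fin N → E → ℂ) (h : Fin N → E' → ℂ) (s : ℕ → ℕ),
      (∀ i, DifferentiableOn ℂ (h i) H) → StrictMono s →
      (∀ K ⊆ H, IsCompact K → TendstoUniformlyOn (fun n x => F₀ (ψ (s n) x)) 0 atTop K) →
      (∀ i, ∀ K ⊆ H, IsCompact K →
          TendstoUniformlyOn (fun n x => 4 * F i (ψ (s n) x)) (h i) atTop K) →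
      ∀ (X : Set E) (g₀ : E → ℂ) (g : Fin N → E → ℂ) (M c : ℝ), IsOpen X → 0 < c →
        (∀ᶠ n in atTop, MapsTo (ψ n) (U n) X) →
        DifferentiableOn ℂ g₀ X → (∀ i, DifferentiableOn ℂ (g i) X) →
        (∀ z ∈ X, ‖g₀ z‖ ≤ M) → (∀ i, ∀ z ∈ X, ‖g i z‖ ≤ M) →
        (∀ z ∈ X, c ≤ ‖F₀ z * g₀ z + ∑ i, F i z * g i z‖) →
        ∃ γ : Fin N → E' → ℂ, (∀ i, DifferentiableOn ℂ (γ i) H) ∧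
          (∀ i, ∀ x ∈ H, ‖γ i x‖ ≤ M / (4 * c)) ∧ ∀ x ∈ H, ∑ i, h i x * γ i x = 1

/-- BALL: thick subsets of the ball -/
def S_bl2 : Prop :=
  ∀ (m : ℕ) (X : Set (V m)), X ⊆ ball 0 1 →
    (∀ r : ℝ, r < 1 → ∃ (p : V m) (a : ℂ), ‖p‖ = 1 ∧ ‖a‖ < 1 ∧ MapsTo (mv p a) (ball 0 r) X) →
    ∃ (U : ℕ → Set (V m)) (ψ G : ℕ → V m → V m) (P : V m → ℂ),
      Appr (ball (0 : V m) 1) (ball (0 : V m) 1) U ψ G P ∧ ∀ n, MapsTo (ψ n) (U n) X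

/-- the model function at a boundary point -/
noncomputable def SS {m : ℕ} (A : V m →L[ℂ] V m) (B : V m →L[ℂ] V m →L[ℂ] ℂ) (l : V m →L[ℂ] ℂ)
    (β : ℝ) (y : V m) (v : ℝ) : ℝ :=
  ‖A y‖ ^ 2 + (B y y).re + v * (l y).re + β * v ^ 2

/-- GEO1: second order expansion at a farthest point (real form) -/
def S_geo1 : Prop :=
  ∀ (m : ℕ) (e : V m) (R : ℝ) (D : Set (V m)) (ρ : V m → ℝ), ‖e‖ = 1 → 0 < R → IsOpen D →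
    D ⊆ ball 0 R → ContDiffAt ℝ 2 ρ ((R : ℂ) • e) → fderiv ℝ ρ ((R : ℂ) • e) ≠ 0 →
    (R : ℂ) • e ∈ closure D → (∀ᶠ z in 𝓝 ((R : ℂ) • e), z ∈ D ↔ ρ z < 0) →
    ∃ b : V m →L[ℝ] V m →L[ℝ] ℝ, (∀ x y, b x y = b y x) ∧
      (∀ (y : V m) (v : ℝ), (inner ℂ e y : ℂ) = 0 →
        (‖y‖ ^ 2 + v ^ 2) / (2 * R) ≤ b (y - ((v : ℂ) * I) • e) (y - ((v : ℂ) * I) • e)) ∧
      ∀ σ : ℝ, 0 < σ → ∃ r : ℝ, 0 < r ∧ ∀ (y : V m) (w : ℂ), (inner ℂ e y : ℂ) = 0 →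
        ‖y‖ < r → ‖w‖ < r →
        (((R : ℂ) - w) • e + y ∈ D → b (y - ((w.im : ℂ) * I) • e) (y - ((w.im : ℂ) * I) • e)
            - σ * (‖y‖ ^ 2 + w.im ^ 2) < w.re) ∧
        (b (y - ((w.im : ℂ) * I) • e) (y - ((w.im : ℂ) * I) • e)
            + σ * (‖y‖ ^ 2 + w.im ^ 2) < w.re → ((R : ℂ) - w) • e + y ∈ D)

/-- GEO1b: algebra -/
def S_geo1b : Prop :=
  ∀ (m : ℕ) (e : V m) (R : ℝ) (b : V m →L[ℝ] V m →L[ℝ] ℝ), ‖e‖ = 1 → 0 < R →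
    (∀ x y, b x y = b y x) →
    (∀ (y : V m) (v : ℝ), (inner ℂ e y : ℂ) = 0 →
        (‖y‖ ^ 2 + v ^ 2) / (2 * R) ≤ b (y - ((v : ℂ) * I) • e) (y - ((v : ℂ) * I) • e)) →
    ∃ (A A' : V m →L[ℂ] V m) (B : V m →L[ℂ] V m →L[ℂ] ℂ) (l : V m →L[ℂ] ℂ) (β : ℝ),
      (∀ y, (inner ℂ e y : ℂ) = 0 → (inner ℂ e (A y) : ℂ) = 0 ∧ (inner ℂ e (A' y) : ℂ) = 0 ∧
        A (A' y) = y) ∧
      ∀ (y : V m) (v : ℝ), (inner ℂ e y : ℂ) = 0 →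
        b (y - ((v : ℂ) * I) • e) (y - ((v : ℂ) * I) • e) = SS A B l β y v

/-- GEO2: the global holomorphic functions `W`, `Y` -/
def S_geo2 : Prop :=
  ∀ (m : ℕ) (e : V m) (R : ℝ) (D : Set (V m)) (A : V m →L[ℂ] V m) (B : V m →L[ℂ] V m →L[ℂ] ℂ)
    (l : V m →L[ℂ] ℂ) (β : ℝ), ‖e‖ = 1 → 0 < R → D ⊆ ball 0 R →
    (∀ y, (inner ℂ e y : ℂ) = 0 → (inner ℂ e (A y) : ℂ) = 0) →
    (∀ (y : V m) (v : ℝ), (inner ℂ e y : ℂ) = 0 → (‖y‖ ^ 2 + v ^ 2) / (2 * R) ≤ SS A B l β y v) →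
    (∀ σ : ℝ, 0 < σ → ∃ r : ℝ, 0 < r ∧ ∀ (y : V m) (w : ℂ), (inner ℂ e y : ℂ) = 0 →
        ‖y‖ < r → ‖w‖ < r → ((R : ℂ) - w) • e + y ∈ D →
          SS A B l β y w.im - σ * (‖y‖ ^ 2 + w.im ^ 2) < w.re) →
    ∀ κ : ℝ, 0 < κ → κ < 1 → ∃ (W : V m → ℂ) (Y : V m → V m), DifferentiableOn ℂ W D ∧
      DifferentiableOn ℂ Y D ∧ (∀ z ∈ D, (inner ℂ e (Y z) : ℂ) = 0 ∧ ‖Y z‖ ^ 2 < (W z).re) ∧
      ∀ σ : ℝ, 0 < σ → ∃ r : ℝ, 0 < r ∧ ∀ (y : V m) (w : ℂ), (inner ℂ e y : ℂ) = 0 →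
        ‖y‖ < r → ‖w‖ < r → ((R : ℂ) - w) • e + y ∈ D →
          ‖W (((R : ℂ) - w) • e + y) - (w - B y y)‖ ≤ σ * (‖w‖ + ‖y‖ ^ 2) ∧
          ‖Y (((R : ℂ) - w) • e + y) - (κ : ℂ) • A y‖ ≤ σ * ‖y‖

/-- GEO3: the scaling maps for fixed `κ < 1` -/
def S_geo3 : Prop :=
  ∀ (m : ℕ) (e : V m) (R : ℝ) (D : Set (V m)) (A A' : V m →L[ℂ] V m)
    (B : V m →L[ℂ] V m →L[ℂ] ℂ) (l : V m →L[ℂ] ℂ) (β : ℝ), ‖e‖ = 1 → 0 < R →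
    (∀ y, (inner ℂ e y : ℂ) = 0 → (inner ℂ e (A y) : ℂ) = 0 ∧ (inner ℂ e (A' y) : ℂ) = 0 ∧
        A (A' y) = y) →
    (∀ σ : ℝ, 0 < σ → ∃ r : ℝ, 0 < r ∧ ∀ (y : V m) (w : ℂ), (inner ℂ e y : ℂ) = 0 →
        ‖y‖ < r → ‖w‖ < r → SS A B l β y w.im + σ * (‖y‖ ^ 2 + w.im ^ 2) < w.re →
          ((R : ℂ) - w) • e + y ∈ D) →
    ∀ (κ : ℝ) (W : V m → ℂ) (Y : V m → V m), 0 < κ → κ < 1 → DifferentiableOn ℂ W D →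
      DifferentiableOn ℂ Y D → (∀ z ∈ D, (inner ℂ e (Y z) : ℂ) = 0 ∧ ‖Y z‖ ^ 2 < (W z).re) →
      (∀ σ : ℝ, 0 < σ → ∃ r : ℝ, 0 < r ∧ ∀ (y : V m) (w : ℂ), (inner ℂ e y : ℂ) = 0 →
        ‖y‖ < r → ‖w‖ < r → ((R : ℂ) - w) • e + y ∈ D →
          ‖W (((R : ℂ) - w) • e + y) - (w - B y y)‖ ≤ σ * (‖w‖ + ‖y‖ ^ 2) ∧
          ‖Y (((R : ℂ) - w) • e + y) - (κ : ℂ) • A y‖ ≤ σ * ‖y‖) →
      ∀ r σ : ℝ, r < 1 → 0 < σ → ∃ ψ G : V m → V m,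
        DifferentiableOn ℂ ψ (ball 0 r) ∧ MapsTo ψ (ball 0 r) D ∧
        DifferentiableOn ℂ G D ∧ MapsTo G D (ball 0 1) ∧
        (∀ x ∈ ball (0 : V m) r, ‖ψ x - (R : ℂ) • e‖ ≤ σ) ∧
        ∀ x ∈ ball (0 : V m) r,
          ‖G (ψ x) - ((inner ℂ e x : ℂ) • e + (κ : ℂ) • (x - (inner ℂ e x : ℂ) • e))‖ ≤ σ

/-- GEO: farthest points -/
def S_geo : Prop :=
  ∀ (m : ℕ) (e : V m) (R : ℝ) (D : Set (V m)) (ρ : V m → ℝ), ‖e‖ = 1 → 0 < R → IsOpen D →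
    D ⊆ ball 0 R → ContDiffAt ℝ 2 ρ ((R : ℂ) • e) → fderiv ℝ ρ ((R : ℂ) • e) ≠ 0 →
    (R : ℂ) • e ∈ closure D → (∀ᶠ z in 𝓝 ((R : ℂ) • e), z ∈ D ↔ ρ z < 0) →
    ∃ (U : ℕ → Set (V m)) (ψ G : ℕ → V m → V m) (P : V m → ℂ),
      Appr D (ball (0 : V m) 1) U ψ G P ∧
      ∀ O ∈ 𝓝 ((R : ℂ) • e), ∀ᶠ n in atTop, MapsTo (ψ n) (U n) O

/-- THIN1: approximate extrapolation by finite sums -/
def S_thin1 : Prop :=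
  ∀ ρ t : ℝ, 0 < ρ → ρ < t → t < 1 → ∃ C : ℝ, ∀ M : ℕ, 0 < M → ∀ γ : ℂ → ℂ,
    DifferentiableOn ℂ γ (ball 0 (1 / ρ)) → (∀ ζ ∈ ball (0 : ℂ) (1 / ρ), ‖γ ζ‖ ≤ 1) →
    ‖γ (1 / t) - (1 / M : ℂ) * ∑ j ∈ Finset.range M, γ (exp (2 * Real.pi * I * (j / M : ℂ))) *
      ∑ k ∈ Finset.range M, ((t * exp (2 * Real.pi * I * (j / M : ℂ)))⁻¹ : ℂ) ^ k‖
      ≤ C * (ρ / t) ^ M

/-- the neighbourhood of the slice through `p` -/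
def TT {m : ℕ} (p : V m) (ρ : ℝ) : Set (V m) :=
  {z | z ∈ ball (0 : V m) 1 ∧
    ‖z - (inner ℂ p z : ℂ) • p‖ ^ 2 ≤ ρ ^ 2 * (1 - ‖(inner ℂ p z : ℂ)‖ ^ 2)}

/-- solutions for partial dilations -/
def S_pd : Prop :=
  ∀ (m : ℕ) (p : V m), ‖p‖ = 1 → ∀ (N : ℕ) (δ : ℝ), 0 < δ → ∀ t : ℝ, 0 ≤ t → t < 1 →
    ∃ C : ℝ, ∀ F : Fin N → V m → ℂ, Datum N δ (ball 0 1) F →
      ∃ g : Fin N → V m → ℂ, (∀ i, DifferentiableOn ℂ (g i) (ball 0 1)) ∧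
        (∀ i, ∀ z ∈ ball (0 : V m) 1, ‖g i z‖ ≤ C) ∧
        ∀ z ∈ ball (0 : V m) 1, ∑ i, F i (tau p t z) * g i z = 1

/-- THIN2: one slice -/
def S_thin2 : Prop :=
  ∀ (m : ℕ) (p : V m), ‖p‖ = 1 → ∀ (N : ℕ) (δ ρ t : ℝ), 0 < δ → 0 < ρ → ρ < t → t < 1 →
    ∃ C : ℝ, 0 ≤ C ∧ ∀ M : ℕ, 0 < M → ∀ f : Fin N → V m → ℂ, Datum N δ (ball 0 1) f →
      ∃ g : Fin N → V m → ℂ, (∀ i, DifferentiableOn ℂ (g i) (ball 0 1)) ∧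
        (∀ i, ∀ z ∈ ball (0 : V m) 1, ‖g i z‖ ≤ C * (1 / t) ^ M) ∧
        ∀ z ∈ TT p ρ, ‖∑ i, f i z * g i z - 1‖ ≤ C * (ρ / t) ^ M

/-- THIN3: finitely many slices -/
def S_thin3 : Prop :=
  ∀ (m : ℕ) (p : V m), ‖p‖ = 1 → ∀ (N l : ℕ) (δ ρ ε : ℝ), 0 < δ → 0 ≤ ρ → ρ < 1 → 0 < ε →
    ∃ C : ℝ, ∀ ψ φ : Fin l → V m → V m,
      (∀ j, DifferentiableOn ℂ (ψ j) (ball 0 1) ∧ DifferentiableOn ℂ (φ j) (ball 0 1) ∧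
        MapsTo (ψ j) (ball 0 1) (ball 0 1) ∧ MapsTo (φ j) (ball 0 1) (ball 0 1) ∧
        (∀ z ∈ ball (0 : V m) 1, φ j (ψ j z) = z) ∧ ∀ z ∈ ball (0 : V m) 1, ψ j (φ j z) = z) →
      ∀ f : Fin N → V m → ℂ, Datum N δ (ball 0 1) f →
      ∃ g : Fin N → V m → ℂ, (∀ i, DifferentiableOn ℂ (g i) (ball 0 1)) ∧
        (∀ i, ∀ z ∈ ball (0 : V m) 1, ‖g i z‖ ≤ C) ∧
        ∀ j, ∀ z ∈ TT p ρ, ‖∑ i, f i (ψ j z) * g i (ψ j z) - 1‖ ≤ ε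

end Pool.Agent.W732.Ud
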