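import Mathlib
import Pool.Agent.W732.Ud.Stm

/-!
Universal corona data: supportable boundary points (statement).
-/

set_option autoImplicit false

open Metric Set Filter Topology Complex
open scoped ContDiff

namespace Pool.Agent.W732.Ud

open Pool.Agent.W732.Cor (V mv tau)

/-- the boundary of `D` is of class `C²` near `p` -/
def C2At {m : ℕ} (D : Set (V m)) (p : V m) : Prop :=
  ∃ ρ : V m → ℝ, ContDiffAt ℝ 2 ρ p ∧ fderiv ℝ ρ p ≠ 0 ∧ ∀ᶠ z in 𝓝 p, z ∈ D ↔ ρ z < 0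

/-- `p` is a supportable boundary point of `D`: some holomorphic map `Φ` on `D` and near `p`, locally
biholomorphic at `p`, maps `D` into a ball and `p` to a point of its boundary, and the points of `D`
away from `p` to points away from `Φ p`. -/
def Supp {m : ℕ} (D : Set (V m)) (p : V m) : Prop :=
  ∃ (O : Set (V m)) (Φ : V m → V m) (Φ' : V m ≃L[ℂ] V m) (c : V m), IsOpen O ∧ p ∈ O ∧
    DifferentiableOn ℂ Φ (D ∪ O) ∧ HasFDerivAt Φ (Φ' : V m →L[ℂ] V m) p ∧ Φ p ≠ c ∧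
    MapsTo Φ D (ball c ‖Φ p - c‖) ∧
    ∀ O' ∈ 𝓝 p, ∃ η : ℝ, 0 < η ∧ ∀ z ∈ D, z ∉ O' → η ≤ ‖Φ z - Φ p‖

/-- GEOP: supportable boundary points -/
def S_geoP : Prop :=
  ∀ (m : ℕ) (D : Set (V m)) (p : V m), IsOpen D → p ∈ closure D → C2At D p → Supp D p →
    ∃ (U : ℕ → Set (V m)) (ψ G : ℕ → V m → V m) (P : V m → ℂ),
      Appr D (ball (0 : V m) 1) U ψ G P ∧ ∀ O ∈ 𝓝 p, ∀ᶠ n in atTop, MapsTo (ψ n) (U n) O

end Pool.Agent.W732.Ud
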