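import Mathlib
import Pool.Agent.W732.Ud.Stm2

/-!
Universal corona data: assembly.
-/

set_option autoImplicit false

open Metric Set Filter Topology Complex
open scoped ContDiff

namespace Pool.Agent.W732.Ud

open Pool.Agent.W732.Cor (V mv tau)

/-- the corona theorem on the ball with a bound depending only on `N`, `δ` -/
def UC (m N : ℕ) (δ : ℝ) : Prop :=
  ∃ C : ℝ, ∀ f : Fin N → V m → ℂ, Datum N δ (ball 0 1) f →
    ∃ g : Fin N → V m → ℂ, (∀ i, DifferentiableOn ℂ (g i) (ball 0 1)) ∧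
      (∀ i, ∀ z ∈ ball (0 : V m) 1, ‖g i z‖ ≤ C) ∧
      ∀ z ∈ ball (0 : V m) 1, ∑ i, f i z * g i z = 1

/-- bounded solutions of `|∑ F i g i| ≥ c` on `X` -/
def Sol {m : ℕ} (N : ℕ) (X : Set (V m)) (F : Fin N → V m → ℂ) : Prop :=
  ∃ g : Fin N → V m → ℂ, (∀ i, DifferentiableOn ℂ (g i) X) ∧
    (∃ M : ℝ, ∀ i, ∀ z ∈ X, ‖g i z‖ ≤ M) ∧ ∃ c : ℝ, 0 < c ∧ ∀ z ∈ X, c ≤ ‖∑ i, F i z * g i z‖

/-- the data `F` on `D` are universal along the maps `ψ` -/
def Univ {m : ℕ} (N : ℕ) (δ : ℝ) (ψ : ℕ → V m → V m) (F : Fin (N + 1) → V m → ℂ) : Prop :=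
  ∀ f : Fin N → V m → ℂ, Datum N δ (ball 0 1) f → ∃ s : ℕ → ℕ, StrictMono s ∧
    ∀ r : ℝ, r < 1 →
      TendstoUniformlyOn (fun n x => F 0 (ψ (s n) x)) 0 atTop (ball 0 r) ∧
      ∀ i : Fin N, TendstoUniformlyOn (fun n x => 4 * F i.succ (ψ (s n) x)) (f i) atTop (ball 0 r)

theorem Sol.mono {m N : ℕ} {X Y : Set (V m)} {F : Fin N → V m → ℂ} (h : Sol N X F) (hY : Y ⊆ X) :
    Sol N Y F := by
  obtain ⟨g, hg, ⟨M, hM⟩, c, hc, hc2⟩ := h
  exact ⟨g, fun i => (hg i).mono hY, ⟨M, fun i z hz => hM i z (hY hz)⟩, c, hc,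
    fun z hz => hc2 z (hY hz)⟩

/-- general transfer -/
theorem transfer (hud : S_ud) (hlim : S_lim) {m : ℕ} {D : Set (V m)} {U : ℕ → Set (V m)}
    {ψ G : ℕ → V m → V m} {P : V m → ℂ} (hA : Appr D (ball (0 : V m) 1) U ψ G P) (N : ℕ) (δ : ℝ)
    (hδ : 0 < δ) : ∃ F : Fin (N + 1) → V m → ℂ, Datum (N + 1) (min (1 / 2) (δ / 8)) D F ∧
      Univ N δ ψ F ∧
      ∀ X : Set (V m), IsOpen X → (∀ᶠ n in atTop, MapsTo (ψ n) (U n) X) → Sol (N + 1) X F →
        UC m N δ := by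
  obtain ⟨F₀, F, hd0, hd, hb0, hb, hlow, huniv⟩ := hud (V m) (V m) D (ball 0 1) U ψ G P hA N δ hδ
  refine ⟨Fin.cons F₀ F, ⟨?_, ?_, ?_⟩, ?_, ?_⟩
  · intro i
    refine Fin.cases ?_ (fun i => ?_) i
    · simpa using hd0
    · simpa using hd i
  · intro i
    refine Fin.cases ?_ (fun i => ?_) i
    · simpa using hb0
    · simpa using hb i
  · intro z hz
    rw [Fin.sum_univ_succ]
    simpa using hlow z hz
  · intro f hf
    obtain ⟨s, hs, hs0, hs1⟩ := huniv f hf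
    refine ⟨s, hs, fun r hr => ?_⟩
    have hsub : closedBall (0 : V m) r ⊆ ball 0 1 := closedBall_subset_ball hr
    refine ⟨?_, fun i => ?_⟩
    · have := (hs0 (closedBall 0 r) hsub (isCompact_closedBall _ _)).mono ball_subset_closedBall
      simpa using this
    · have := (hs1 i (closedBall 0 r) hsub (isCompact_closedBall _ _)).mono ball_subset_closedBall
      simpa using this
  · intro X hX hmap hsol
    obtain ⟨g, hg, ⟨M, hM⟩, c, hc, hc2⟩ := hsol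
    refine ⟨M / (4 * c), fun f hf => ?_⟩
    obtain ⟨s, hs, hs0, hs1⟩ := huniv f hf
    refine hlim (V m) (V m) D (ball 0 1) U ψ G P hA N F₀ F f s hf.hol hs hs0 hs1 X (g 0)
      (fun i => g i.succ) M c hX hc hmap (hg 0) (fun i => hg i.succ) (hM 0)
      (fun i => hM i.succ) ?_
    intro z hz
    have := hc2 z hz
    rw [Fin.sum_univ_succ] at this
    simpa using this

/-- thick subsets of the ball -/
theorem thick (hud : S_ud) (hlim : S_lim) (hbl : S_bl2) {m : ℕ} (X : Set (V m)) (hX : IsOpen X)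
    (hX1 : X ⊆ ball 0 1) (ht : ∀ r : ℝ, r < 1 → ∃ (p : V m) (a : ℂ), ‖p‖ = 1 ∧ ‖a‖ < 1 ∧
      MapsTo (mv p a) (ball 0 r) X) (N : ℕ) (δ : ℝ) (hδ : 0 < δ) :
    ∃ F : Fin (N + 1) → V m → ℂ, Datum (N + 1) (min (1 / 2) (δ / 8)) (ball 0 1) F ∧
      (Sol (N + 1) X F → UC m N δ) := by
  obtain ⟨U, ψ, G, P, hA, hm⟩ := hbl m X hX1 ht
  obtain ⟨F, hF, -, h⟩ := transfer hud hlim hA N δ hδ
  exact ⟨F, hF, fun hs => h X hX (Eventually.of_forall hm) hs⟩

/-- supportable boundary points -/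
theorem domP (hud : S_ud) (hlim : S_lim) (hgeo : S_geoP) {m : ℕ} (D : Set (V m)) (p : V m)
    (hD : IsOpen D) (hp : p ∈ closure D) (h2 : C2At D p) (hs : Supp D p)
    (N : ℕ) (δ : ℝ) (hδ : 0 < δ) :
    ∃ (F : Fin (N + 1) → V m → ℂ) (ψ : ℕ → V m → V m),
      Datum (N + 1) (min (1 / 2) (δ / 8)) D F ∧
      (∀ r : ℝ, r < 1 → ∀ O ∈ 𝓝 p, ∀ᶠ n in atTop, DifferentiableOn ℂ (ψ n) (ball 0 r) ∧
        MapsTo (ψ n) (ball 0 r) (D ∩ O)) ∧ Univ N δ ψ F ∧
      ((∃ O ∈ 𝓝 p, Sol (N + 1) (D ∩ O) F) → UC m N δ) := by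
  obtain ⟨U, ψ, G, P, hA, hm⟩ := hgeo m D p hD hp h2 hs
  obtain ⟨F, hF, hu, h⟩ := transfer hud hlim hA N δ hδ
  refine ⟨F, ψ, hF, ?_, hu, ?_⟩
  · intro r hr O hO
    have hsub : closedBall (0 : V m) r ⊆ ball 0 1 := closedBall_subset_ball hr
    filter_upwards [hm O hO, hA.exh.exh _ hsub (isCompact_closedBall _ _)] with n hn hn2
    have hn3 : ball (0 : V m) r ⊆ U n := ball_subset_closedBall.trans hn2
    exact ⟨(hA.dψ n).mono hn3, fun x hx => ⟨hA.mψ n (hn3 hx), hn (hn3 hx)⟩⟩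
  · rintro ⟨O, hO, hs⟩
    have hO' : interior O ∈ 𝓝 p := interior_mem_nhds.2 hO
    refine h (D ∩ interior O) (hD.inter isOpen_interior) ?_
      (hs.mono (inter_subset_inter_right _ interior_subset))
    filter_upwards [hm _ hO'] with n hn x hx
    exact ⟨hA.mψ n hx, hn hx⟩

/-- farthest points are supportable -/
theorem supp_far {m : ℕ} (D : Set (V m)) (c p : V m) (hD1 : D ⊆ ball c ‖p - c‖) (hpc : p ≠ c) :
    Supp D p := by
  refine ⟨univ, id, ContinuousLinearEquiv.refl ℂ (V m), c, isOpen_univ, mem_univ _,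
    differentiable_id.differentiableOn, ?_, hpc, hD1, ?_⟩
  · exact hasFDerivAt_id p
  · intro O hO
    obtain ⟨η, hη, hsub⟩ := Metric.mem_nhds_iff.1 hO
    refine ⟨η, hη, fun z _ hz => ?_⟩
    by_contra h
    exact hz (hsub (by rw [mem_ball, dist_eq_norm]; exact not_le.1 h))

/-- existence of farthest points -/
theorem exists_far {m : ℕ} (hm : 0 < m) (D : Set (V m)) (hD : IsOpen D)
    (hb : Bornology.IsBounded D) (hne : D.Nonempty) :
    ∃ p ∈ frontier D, p ≠ 0 ∧ D ⊆ ball 0 ‖p‖ := by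
  have : Nonempty (Fin m) := ⟨⟨0, hm⟩⟩
  have hcpt : IsCompact (closure D) := hb.isCompact_closure
  obtain ⟨p, hp, hmax⟩ := hcpt.exists_isMaxOn hne.closure continuous_norm.continuousOn
  have hle : ∀ z ∈ D, ‖z‖ ≤ ‖p‖ := fun z hz => hmax (subset_closure hz)
  have hnt : Nontrivial (V m) := inferInstance
  have hpos : 0 < ‖p‖ := by
    by_contra h
    have h0 : ‖p‖ = 0 := le_antisymm (not_lt.1 h) (norm_nonneg _)
    have hsub : D ⊆ {0} := by
      intro z hz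
      have := hle z hz
      rw [h0] at this
      exact norm_le_zero_iff.1 this
    have h1 : D ⊆ interior {0} := hD.subset_interior_iff.2 hsub
    obtain ⟨z, hz⟩ := hne
    have h2 : z ∈ interior ({0} : Set (V m)) := h1 hz
    have : (𝓝[≠] (0 : V m)).NeBot := Module.punctured_nhds_neBot ℂ (V m) 0
    rw [interior_singleton] at h2
    exact h2
  have hlt : D ⊆ ball 0 ‖p‖ := by
    intro z hz
    rw [mem_ball_zero_iff]
    refine lt_of_le_of_ne (hle z hz) ?_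
    intro heq
    have hc : Tendsto (fun t : ℝ => ((1 + t : ℝ) : ℂ) • z) (𝓝[>] 0) (𝓝 z) := by
      have : Tendsto (fun t : ℝ => ((1 + t : ℝ) : ℂ) • z) (𝓝 0) (𝓝 (((1 + 0 : ℝ) : ℂ) • z)) := by
        refine Continuous.tendsto ?_ 0
        fun_prop
      simp only [add_zero, Complex.ofReal_one, one_smul] at this
      exact this.mono_left nhdsWithin_le_nhds
    have h1 := hc.eventually (hD.mem_nhds hz)
    have h2 : ∀ᶠ t : ℝ in 𝓝[>] 0, 0 < t := eventually_mem_nhdsWithin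
    obtain ⟨t, ht, ht0⟩ := (h1.and h2).exists
    have h3 := hle _ ht
    rw [norm_smul, Complex.norm_real, Real.norm_eq_abs, abs_of_pos (by linarith), heq] at h3
    nlinarith
  refine ⟨p, ⟨hp, ?_⟩, norm_pos_iff.1 hpos, hlt⟩
  rw [hD.interior_eq]
  intro h
  have := hlt h
  rw [mem_ball_zero_iff] at this
  exact lt_irrefl _ this

/-- one domain -/
theorem one_domain (hud : S_ud) (hlim : S_lim) (hgeo : S_geoP) {m : ℕ} (hm : 0 < m)
    (D : Set (V m)) (hD : IsOpen D) (hb : Bornology.IsBounded D) (hne : D.Nonempty)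
    (h2 : ∀ p ∈ frontier D, C2At D p)
    (hsol : ∀ (N : ℕ) (δ : ℝ) (F : Fin N → V m → ℂ), 0 < δ → Datum N δ D F →
      ∃ g : Fin N → V m → ℂ, (∀ i, DifferentiableOn ℂ (g i) D) ∧
        (∃ M : ℝ, ∀ i, ∀ z ∈ D, ‖g i z‖ ≤ M) ∧ ∀ z ∈ D, ∑ i, F i z * g i z = 1)
    (N : ℕ) (δ : ℝ) (hδ : 0 < δ) : UC m N δ := by
  obtain ⟨p, hp, hp0, hfar⟩ := exists_far hm D hD hb hne
  obtain ⟨F, ψ, hF, -, -, h⟩ := domP hud hlim hgeo D p hD hp.1 (h2 p hp)
    (supp_far D 0 p (by simpa using hfar) hp0) N δ hδ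
  obtain ⟨g, hg, hM, h1⟩ := hsol (N + 1) _ F (lt_min (by norm_num) (by positivity)) hF
  refine h ⟨univ, univ_mem, ?_⟩
  rw [inter_univ]
  exact ⟨g, hg, hM, 1, one_pos, fun z hz => by rw [h1 z hz]; simp⟩

end Pool.Agent.W732.Ud
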