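import Mathlib
import Pool.Agent.W732.Ud.Asm
import Pool.Agent.W366.UD.Lu
import Pool.Agent.W978.Ud.Mt
import Pool.Agent.W177.Ud.SP
import Pool.Agent.W349.Ud.PK
import Pool.Agent.W216.Ud.Bl
import Pool.Agent.W101.Ud.Disc
import Pool.Agent.W216.Ud.Sep
import Pool.Agent.W571.Ud.Sum
import Pool.Agent.W64.Ud.Main
import Pool.Agent.W721.Ud.Lim
import Pool.Agent.W540.Ud.Ball
import Pool.Agent.W591.Ud.G1b
import Pool.Agent.W369.Ud.Geo
import Pool.Agent.W721.Ud.G1
import Pool.Agent.W249.Ud.Geo2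
import Pool.Agent.W15.Ud.G3

/-!
Universal corona data: all parts together.
-/

set_option autoImplicit false

namespace Pool.Agent.W732.Ud

theorem t_lu : S_lu := Pool.Agent.W366.UD.lu

theorem t_mt : S_mt := Pool.Agent.W978.Ud.main t_lu

theorem t_sp : S_sp := Pool.Agent.W177.Ud.SP.main t_mt

theorem t_disc : S_disc := Pool.Agent.W101.Ud.main Pool.Agent.W349.Ud.main Pool.Agent.W216.Ud.Bl.main

theorem t_sum : S_sum := Pool.Agent.W571.Ud.Sum.main t_lu

theorem t_ud : S_ud := Pool.Agent.W64.Ud.main t_disc t_sp Pool.Agent.W216.Ud.Sep.main t_sum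

theorem t_lim : S_lim := Pool.Agent.W721.Ud.Lim.main t_mt

theorem t_geo : S_geo :=
  Pool.Agent.W369.Ud.Geo.main Pool.Agent.W721.Ud.G1.main Pool.Agent.W591.Ud.main
    Pool.Agent.W249.Ud.main Pool.Agent.W15.Ud.g3

end Pool.Agent.W732.Ud
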