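import Mathlib
import Pool.Agent.W732.Cor.All
import Pool.Agent.W732.Ud.All
import Pool.Agent.W125.Ud.Geop

/-!
Universal corona data: all parts together.
-/

set_option autoImplicit false

namespace Pool.Agent.W732.Ud

theorem t_geoP : S_geoP := Pool.Agent.W125.Ud.main t_geo

theorem t_bl2 : S_bl2 := Pool.Agent.W540.Ud.Ball.main Pool.Agent.W732.Cor.t_mv

end Pool.Agent.W732.Ud
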