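import Mathlib
import Pool.Agent.W732.Ud.Stm2

/-!
Universal corona data which are continuous up to the boundary except at one point: statements.
-/

set_option autoImplicit false

open Metric Set Filter Topology Complex
open scoped ContDiff

namespace Pool.Agent.W732.Ud

open Pool.Agent.W732.Cor (V mv tau)

/-- SEPC: a dense sequence of data continuous up to the boundary -/
def S_sepc : Prop :=
  ∀ (m N : ℕ) (δ : ℝ), (∃ h : Fin N → V m → ℂ, Datum N δ (ball (0 : V m) 1) h) →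
    ∃ hh : ℕ → Fin N → V m → ℂ, (∀ k, Datum N δ (ball (0 : V m) 1) (hh k)) ∧
      (∀ k i, ContinuousOn (hh k i) (closedBall 0 1)) ∧
      (∀ k i, ∀ z ∈ closedBall (0 : V m) 1, ‖hh k i z‖ ≤ 1) ∧
      ∀ h : Fin N → V m → ℂ, Datum N δ (ball (0 : V m) 1) h → ∃ s : ℕ → ℕ, StrictMono s ∧
        ∀ i, ∀ K ⊆ ball (0 : V m) 1, IsCompact K →
          TendstoUniformlyOn (fun n => hh (s n) i) (h i) atTop K

/-- SUMC: continuity of the sum `∑ p k (P z) * h k z` on `Z` -/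
def S_sumc : Prop :=
  ∀ (E : Type) [NormedAddCommGroup E] [NormedSpace ℂ E] (Z : Set E)
    (P : E → ℂ) (p : ℕ → ℂ → ℂ) (h : ℕ → E → ℂ),
    ContinuousOn P Z → (∀ z ∈ Z, ‖P z‖ < 1) → (∀ k, DifferentiableOn ℂ (p k) (ball 0 1)) →
    (∀ r : ℝ, r < 1 → ∃ u : ℕ → ℝ, Summable u ∧ ∀ k, ∀ x : ℂ, ‖x‖ ≤ r → ‖p k x‖ ≤ u k) →
    (∀ k, ContinuousOn (h k) Z) → (∀ k, ∀ z ∈ Z, ‖h k z‖ ≤ 1) →
    ContinuousOn (fun z => ∑' k, p k (P z) * h k z) Z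

/-- the maps `G n` and the peak function `P` are continuous up to the boundary, `|P| < 1` except
at `p` -/
structure Bdy {m : ℕ} (D : Set (V m)) (p : V m) (G : ℕ → V m → V m) (P : V m → ℂ) : Prop where
  cG : ∀ n, ContinuousOn (G n) (closure D)
  mG : ∀ n, MapsTo (G n) (closure D) (closedBall 0 1)
  cP : ContinuousOn P (closure D)
  mP : ∀ z ∈ closure D, z ≠ p → ‖P z‖ < 1

/-- UDC: the universal datum, continuous on `closure D \ {p}` -/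
def S_udc : Prop :=
  ∀ (m : ℕ) (D : Set (V m)) (p : V m) (U : ℕ → Set (V m)) (ψ : ℕ → V m → V m)
    (G : ℕ → V m → V m) (P : V m → ℂ), Appr D (ball (0 : V m) 1) U ψ G P → Bdy D p G P → p ∉ D →
    ∀ (N : ℕ) (δ : ℝ), 0 < δ → ∃ (F₀ : V m → ℂ) (F : Fin N → V m → ℂ),
      DifferentiableOn ℂ F₀ D ∧ (∀ i, DifferentiableOn ℂ (F i) D) ∧
      ContinuousOn F₀ (closure D \ {p}) ∧ (∀ i, ContinuousOn (F i) (closure D \ {p})) ∧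
      (∀ z ∈ D, ‖F₀ z‖ ≤ 1) ∧ (∀ i, ∀ z ∈ D, ‖F i z‖ ≤ 1) ∧
      (∀ z ∈ D, min (1 / 2) (δ / 8) ≤ ‖F₀ z‖ + ∑ i, ‖F i z‖) ∧
      ∀ h : Fin N → V m → ℂ, Datum N δ (ball (0 : V m) 1) h → ∃ s : ℕ → ℕ, StrictMono s ∧
        (∀ K ⊆ ball (0 : V m) 1, IsCompact K →
          TendstoUniformlyOn (fun n x => F₀ (ψ (s n) x)) 0 atTop K) ∧
        ∀ i, ∀ K ⊆ ball (0 : V m) 1, IsCompact K →
          TendstoUniformlyOn (fun n x => 4 * F i (ψ (s n) x)) (h i) atTop K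

/-- GEO2C: as `S_geo2`, with continuity on the closure -/
def S_geo2c : Prop :=
  ∀ (m : ℕ) (e : V m) (R : ℝ) (D : Set (V m)) (A : V m →L[ℂ] V m) (B : V m →L[ℂ] V m →L[ℂ] ℂ)
    (l : V m →L[ℂ] ℂ) (β : ℝ), ‖e‖ = 1 → 0 < R → D ⊆ ball 0 R →
    (∀ y, (inner ℂ e y : ℂ) = 0 → (inner ℂ e (A y) : ℂ) = 0) →
    (∀ (y : V m) (v : ℝ), (inner ℂ e y : ℂ) = 0 → (‖y‖ ^ 2 + v ^ 2) / (2 * R) ≤ SS A B l β y v) →
    (∀ σ : ℝ, 0 < σ → ∃ r : ℝ, 0 < r ∧ ∀ (y : V m) (w : ℂ), (inner ℂ e y : ℂ) = 0 →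
        ‖y‖ < r → ‖w‖ < r → ((R : ℂ) - w) • e + y ∈ D →
          SS A B l β y w.im - σ * (‖y‖ ^ 2 + w.im ^ 2) < w.re) →
    ∀ κ : ℝ, 0 < κ → κ < 1 → ∃ (W : V m → ℂ) (Y : V m → V m), DifferentiableOn ℂ W D ∧
      DifferentiableOn ℂ Y D ∧ ContinuousOn W (closure D) ∧ ContinuousOn Y (closure D) ∧
      (∀ z ∈ D, (inner ℂ e (Y z) : ℂ) = 0 ∧ ‖Y z‖ ^ 2 < (W z).re) ∧
      ∀ σ : ℝ, 0 < σ → ∃ r : ℝ, 0 < r ∧ ∀ (y : V m) (w : ℂ), (inner ℂ e y : ℂ) = 0 →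
        ‖y‖ < r → ‖w‖ < r → ((R : ℂ) - w) • e + y ∈ D →
          ‖W (((R : ℂ) - w) • e + y) - (w - B y y)‖ ≤ σ * (‖w‖ + ‖y‖ ^ 2) ∧
          ‖Y (((R : ℂ) - w) • e + y) - (κ : ℂ) • A y‖ ≤ σ * ‖y‖

/-- GEO3C: as `S_geo3`, with continuity on the closure -/
def S_geo3c : Prop :=
  ∀ (m : ℕ) (e : V m) (R : ℝ) (D : Set (V m)) (A A' : V m →L[ℂ] V m)
    (B : V m →L[ℂ] V m →L[ℂ] ℂ) (l : V m →L[ℂ] ℂ) (β : ℝ), ‖e‖ = 1 → 0 < R →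
    (∀ y, (inner ℂ e y : ℂ) = 0 → (inner ℂ e (A y) : ℂ) = 0 ∧ (inner ℂ e (A' y) : ℂ) = 0 ∧
        A (A' y) = y) →
    (∀ σ : ℝ, 0 < σ → ∃ r : ℝ, 0 < r ∧ ∀ (y : V m) (w : ℂ), (inner ℂ e y : ℂ) = 0 →
        ‖y‖ < r → ‖w‖ < r → SS A B l β y w.im + σ * (‖y‖ ^ 2 + w.im ^ 2) < w.re →
          ((R : ℂ) - w) • e + y ∈ D) →
    ∀ (κ : ℝ) (W : V m → ℂ) (Y : V m → V m), 0 < κ → κ < 1 → DifferentiableOn ℂ W D →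
      DifferentiableOn ℂ Y D → ContinuousOn W (closure D) → ContinuousOn Y (closure D) →
      (∀ z ∈ D, (inner ℂ e (Y z) : ℂ) = 0 ∧ ‖Y z‖ ^ 2 < (W z).re) →
      (∀ σ : ℝ, 0 < σ → ∃ r : ℝ, 0 < r ∧ ∀ (y : V m) (w : ℂ), (inner ℂ e y : ℂ) = 0 →
        ‖y‖ < r → ‖w‖ < r → ((R : ℂ) - w) • e + y ∈ D →
          ‖W (((R : ℂ) - w) • e + y) - (w - B y y)‖ ≤ σ * (‖w‖ + ‖y‖ ^ 2) ∧
          ‖Y (((R : ℂ) - w) • e + y) - (κ : ℂ) • A y‖ ≤ σ * ‖y‖) →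
      ∀ r σ : ℝ, r < 1 → 0 < σ → ∃ ψ G : V m → V m,
        DifferentiableOn ℂ ψ (ball 0 r) ∧ MapsTo ψ (ball 0 r) D ∧
        DifferentiableOn ℂ G D ∧ MapsTo G D (ball 0 1) ∧
        ContinuousOn G (closure D) ∧ MapsTo G (closure D) (closedBall 0 1) ∧
        (∀ x ∈ ball (0 : V m) r, ‖ψ x - (R : ℂ) • e‖ ≤ σ) ∧
        ∀ x ∈ ball (0 : V m) r,
          ‖G (ψ x) - ((inner ℂ e x : ℂ) • e + (κ : ℂ) • (x - (inner ℂ e x : ℂ) • e))‖ ≤ σ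

/-- GEOC: farthest points, with continuity on the closure -/
def S_geoc : Prop :=
  ∀ (m : ℕ) (e : V m) (R : ℝ) (D : Set (V m)) (ρ : V m → ℝ), ‖e‖ = 1 → 0 < R → IsOpen D →
    D ⊆ ball 0 R → ContDiffAt ℝ 2 ρ ((R : ℂ) • e) → fderiv ℝ ρ ((R : ℂ) • e) ≠ 0 →
    (R : ℂ) • e ∈ closure D → (∀ᶠ z in 𝓝 ((R : ℂ) • e), z ∈ D ↔ ρ z < 0) →
    ∃ (U : ℕ → Set (V m)) (ψ G : ℕ → V m → V m) (P : V m → ℂ),
      Appr D (ball (0 : V m) 1) U ψ G P ∧ Bdy D ((R : ℂ) • e) G P ∧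
      ∀ O ∈ 𝓝 ((R : ℂ) • e), ∀ᶠ n in atTop, MapsTo (ψ n) (U n) O

/-- `p` is a supportable boundary point of `D`: some holomorphic map `Φ` on `D` and near `p`,
continuous on the closure of `D`, locally biholomorphic at `p`, maps `D` into a ball and `p` to a
point of its boundary, and the points of `D` away from `p` to points away from `Φ p`. -/
def Suppc {m : ℕ} (D : Set (V m)) (p : V m) : Prop :=
  ∃ (O : Set (V m)) (Φ : V m → V m) (Φ' : V m ≃L[ℂ] V m) (c : V m), IsOpen O ∧ p ∈ O ∧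
    DifferentiableOn ℂ Φ (D ∪ O) ∧ ContinuousOn Φ (closure D) ∧
    HasFDerivAt Φ (Φ' : V m →L[ℂ] V m) p ∧ Φ p ≠ c ∧ MapsTo Φ D (ball c ‖Φ p - c‖) ∧
    ∀ O' ∈ 𝓝 p, ∃ η : ℝ, 0 < η ∧ ∀ z ∈ D, z ∉ O' → η ≤ ‖Φ z - Φ p‖

/-- GEOPC: supportable boundary points -/
def S_geoPc : Prop :=
  ∀ (m : ℕ) (D : Set (V m)) (p : V m), IsOpen D → p ∈ closure D → C2At D p → Suppc D p →
    ∃ (U : ℕ → Set (V m)) (ψ G : ℕ → V m → V m) (P : V m → ℂ),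
      Appr D (ball (0 : V m) 1) U ψ G P ∧ Bdy D p G P ∧ p ∉ D ∧
      ∀ O ∈ 𝓝 p, ∀ᶠ n in atTop, MapsTo (ψ n) (U n) O

/-- the neighbourhoods of the complex geodesics through the boundary point `p` and `0` -/
def Thin {m : ℕ} (X : Set (V m)) : Prop :=
  X ⊆ ball 0 1 ∧ ∀ p : V m, ‖p‖ = 1 → ∃ ρ : ℝ, 0 ≤ ρ ∧ ρ < 1 ∧ ∀ᶠ z in 𝓝 p, z ∈ X →
    ‖z - (inner ℂ p z : ℂ) • p‖ ^ 2 ≤ ρ ^ 2 * (1 - ‖(inner ℂ p z : ℂ)‖ ^ 2)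

/-- THIN4: thin sets -/
def S_thin4 : Prop :=
  ∀ (m N l : ℕ) (δ ε : ℝ) (X : Set (V m)), 0 < δ → 0 < ε → Thin X →
    ∃ C : ℝ, ∀ ψ φ : Fin l → V m → V m,
      (∀ j, DifferentiableOn ℂ (ψ j) (ball 0 1) ∧ DifferentiableOn ℂ (φ j) (ball 0 1) ∧
        MapsTo (ψ j) (ball 0 1) (ball 0 1) ∧ MapsTo (φ j) (ball 0 1) (ball 0 1) ∧
        (∀ z ∈ ball (0 : V m) 1, φ j (ψ j z) = z) ∧ ∀ z ∈ ball (0 : V m) 1, ψ j (φ j z) = z) →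
      ∀ f : Fin N → V m → ℂ, Datum N δ (ball 0 1) f →
      ∃ g : Fin N → V m → ℂ, (∀ i, DifferentiableOn ℂ (g i) (ball 0 1)) ∧
        (∀ i, ∀ z ∈ ball (0 : V m) 1, ‖g i z‖ ≤ C) ∧
        ∀ j, ∀ z ∈ X, ‖∑ i, f i (ψ j z) * g i (ψ j z) - 1‖ ≤ ε

end Pool.Agent.W732.Ud
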