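import Mathlib
import Pool.Agent.W732.Ud.Asm
import Pool.Agent.W732.Ud.Stm3

/-!
Universal corona data continuous off one boundary point: assembly.
-/

set_option autoImplicit false

open Metric Set Filter Topology Complex
open scoped ContDiff

namespace Pool.Agent.W732.Ud

open Pool.Agent.W732.Cor (V mv tau)

/-- supportable boundary points -/
theorem domPc (hudc : S_udc) (hlim : S_lim) (hgeo : S_geoPc) {m : ℕ} (D : Set (V m)) (p : V m)
    (hD : IsOpen D) (hp : p ∈ closure D) (h2 : C2At D p) (hs : Suppc D p)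
    (N : ℕ) (δ : ℝ) (hδ : 0 < δ) :
    ∃ (F : Fin (N + 1) → V m → ℂ) (ψ : ℕ → V m → V m),
      Datum (N + 1) (min (1 / 2) (δ / 8)) D F ∧
      (∀ i, ContinuousOn (F i) (closure D \ {p})) ∧
      (∀ r : ℝ, r < 1 → ∀ O ∈ 𝓝 p, ∀ᶠ n in atTop, DifferentiableOn ℂ (ψ n) (ball 0 r) ∧
        MapsTo (ψ n) (ball 0 r) (D ∩ O)) ∧ Univ N δ ψ F ∧
      ((∃ O ∈ 𝓝 p, Sol (N + 1) (D ∩ O) F) → UC m N δ) := by
  obtain ⟨U, ψ, G, P, hA, hB, hpD, hm⟩ := hgeo m D p hD hp h2 hs
  obtain ⟨F₀, F, hd0, hd, hc0, hcF, hb0, hb, hlow, huniv⟩ := hudc m D p U ψ G P hA hB hpD N δ hδ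
  refine ⟨Fin.cons F₀ F, ψ, ⟨?_, ?_, ?_⟩, ?_, ?_, ?_, ?_⟩
  · intro i
    refine Fin.cases ?_ (fun i => ?_) i
    · simpa using hd0
    · simpa using hd i
  · intro i
    refine Fin.cases ?_ (fun i => ?_) i
    · simpa using hb0
    · simpa using hb i
  · intro z hz
    rw [Fin.sum_univ_succ]
    simpa using hlow z hz
  · intro i
    refine Fin.cases ?_ (fun i => ?_) i
    · simpa using hc0
    · simpa using hcF i
  · intro r hr O hO
    have hsub : closedBall (0 : V m) r ⊆ ball 0 1 := closedBall_subset_ball hr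
    filter_upwards [hm O hO, hA.exh.exh _ hsub (isCompact_closedBall _ _)] with n hn hn2
    have hn3 : ball (0 : V m) r ⊆ U n := ball_subset_closedBall.trans hn2
    exact ⟨(hA.dψ n).mono hn3, fun x hx => ⟨hA.mψ n (hn3 hx), hn (hn3 hx)⟩⟩
  · intro f hf
    obtain ⟨s, hs, hs0, hs1⟩ := huniv f hf
    refine ⟨s, hs, fun r hr => ?_⟩
    have hsub : closedBall (0 : V m) r ⊆ ball 0 1 := closedBall_subset_ball hr
    refine ⟨?_, fun i => ?_⟩
    · have := (hs0 (closedBall 0 r) hsub (isCompact_closedBall _ _)).mono ball_subset_closedBall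
      simpa using this
    · have := (hs1 i (closedBall 0 r) hsub (isCompact_closedBall _ _)).mono ball_subset_closedBall
      simpa using this
  · rintro ⟨O, hO, g, hg, ⟨M, hM⟩, c, hc, hc2⟩
    have hO' : interior O ∈ 𝓝 p := interior_mem_nhds.2 hO
    have hsub : D ∩ interior O ⊆ D ∩ O := inter_subset_inter_right _ interior_subset
    refine ⟨M / (4 * c), fun f hf => ?_⟩
    obtain ⟨s, hs, hs0, hs1⟩ := huniv f hf
    refine hlim (V m) (V m) D (ball 0 1) U ψ G P hA N F₀ F f s hf.hol hs hs0 hs1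
      (D ∩ interior O) (g 0)
      (fun i => g i.succ) M c (hD.inter isOpen_interior) hc ?_ ((hg 0).mono hsub)
      (fun i => (hg i.succ).mono hsub) (fun z hz => hM 0 z (hsub hz))
      (fun i z hz => hM i.succ z (hsub hz)) ?_
    · filter_upwards [hm _ hO'] with n hn x hx
      exact ⟨hA.mψ n hx, hn hx⟩
    · intro z hz
      have := hc2 z (hsub hz)
      rw [Fin.sum_univ_succ] at this
      simpa using this

/-- farthest points are supportable -/
theorem suppc_far {m : ℕ} (D : Set (V m)) (c p : V m) (hD1 : D ⊆ ball c ‖p - c‖) (hpc : p ≠ c) :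
    Suppc D p := by
  refine ⟨univ, id, ContinuousLinearEquiv.refl ℂ (V m), c, isOpen_univ, mem_univ _,
    differentiable_id.differentiableOn, continuous_id.continuousOn, ?_, hpc, hD1, ?_⟩
  · exact hasFDerivAt_id p
  · intro O hO
    obtain ⟨η, hη, hsub⟩ := Metric.mem_nhds_iff.1 hO
    refine ⟨η, hη, fun z _ hz => ?_⟩
    by_contra h
    exact hz (hsub (by rw [mem_ball, dist_eq_norm]; exact not_le.1 h))

/-- one domain -/
theorem one_domainc (hudc : S_udc) (hlim : S_lim) (hgeo : S_geoPc) {m : ℕ} (hm : 0 < m)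
    (D : Set (V m)) (hD : IsOpen D) (hb : Bornology.IsBounded D) (hne : D.Nonempty)
    (h2 : ∀ p ∈ frontier D, C2At D p) : ∃ p ∈ frontier D,
    (∀ (N : ℕ) (δ : ℝ) (F : Fin N → V m → ℂ), 0 < δ → Datum N δ D F →
      (∀ i, ContinuousOn (F i) (closure D \ {p})) →
      ∃ g : Fin N → V m → ℂ, (∀ i, DifferentiableOn ℂ (g i) D) ∧
        (∃ M : ℝ, ∀ i, ∀ z ∈ D, ‖g i z‖ ≤ M) ∧ ∀ z ∈ D, ∑ i, F i z * g i z = 1) →
    ∀ (N : ℕ) (δ : ℝ), 0 < δ → UC m N δ := by
  obtain ⟨p, hp, hp0, hfar⟩ := exists_far hm D hD hb hne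
  refine ⟨p, hp, fun hsol N δ hδ => ?_⟩
  obtain ⟨F, ψ, hF, hFc, -, -, h⟩ := domPc hudc hlim hgeo D p hD hp.1 (h2 p hp)
    (suppc_far D 0 p (by simpa using hfar) hp0) N δ hδ
  obtain ⟨g, hg, hM, h1⟩ := hsol (N + 1) _ F (lt_min (by norm_num) (by positivity)) hF hFc
  refine h ⟨univ, univ_mem, ?_⟩
  rw [inter_univ]
  exact ⟨g, hg, hM, 1, one_pos, fun z hz => by rw [h1 z hz]; simp⟩

end Pool.Agent.W732.Ud
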