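import Mathlib
import Pool.Agent.W732.Cor.All
import Pool.Agent.W32.Ud.T1
import Pool.Agent.W930.Ud.T2
import Pool.Agent.W337.Ud.Thin3

/-!
Thin sets.
-/

set_option autoImplicit false

open Metric Set Filter Topology Complex

namespace Pool.Agent.W732.Ud

open Pool.Agent.W732.Cor (V mv tau)

theorem t_pd : S_pd := by
  intro m p hp N δ hδ t ht0 ht1
  obtain ⟨C, hC⟩ := Pool.Agent.W732.Cor.uniform_tau Pool.Agent.W732.Cor.t_uni
    Pool.Agent.W732.Cor.t_sc2 p hp N δ hδ t ht0 ht1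
  refine ⟨C, fun F hF => ?_⟩
  obtain ⟨g, g₀, hg, hg0, hgb, hg0b, h⟩ := hC F 0 hF.hol (differentiableOn_const 0) hF.bd
    (by intro z hz; simp) (by
      intro z hz
      have h1 : tau p t z ∈ ball (0 : V m) 1 := by
        rw [mem_ball_zero_iff] at hz ⊢
        exact Pool.Agent.W732.Cor.tau_mem p z hp ht0 ht1.le hz
      have h2 := hF.low _ h1
      simpa using h2)
  refine ⟨g, hg, hgb, fun z hz => ?_⟩
  have := h z hz
  simpa using this

theorem t_thin3 : S_thin3 :=
  Pool.Agent.W337.Ud.Thin3.main (Pool.Agent.W930.Ud.main t_pd Pool.Agent.W32.Ud.main)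

end Pool.Agent.W732.Ud
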