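import Mathlib
import Pool.Agent.W732.Ud.Asm3
import Pool.Agent.W732.Ud.All2
import Pool.Agent.W732.Ud.Thin
import Pool.Agent.W356.Ud.SepC
import Pool.Agent.W356.Ud.SumC
import Pool.Agent.W12.Ud.Udc
import Pool.Agent.W12.Ud.Thin4
import Pool.Agent.W500.Ud.Geo2c
import Pool.Agent.W925.Ud.G3c
import Pool.Agent.W563.Ud.Geoc
import Pool.Agent.W925.Ud.Geopc

/-!
Universal corona data continuous off one boundary point: all parts together.
-/

set_option autoImplicit false

namespace Pool.Agent.W732.Ud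

theorem t_udc : S_udc :=
  Pool.Agent.W12.Ud.Udc.main t_disc t_sp (Pool.Agent.W356.Ud.SepC.main Pool.Agent.W216.Ud.Sep.main)
    t_sum Pool.Agent.W356.Ud.SumC.main

theorem t_geoc : S_geoc :=
  Pool.Agent.W563.Ud.Geoc.main Pool.Agent.W721.Ud.G1.main Pool.Agent.W591.Ud.main
    Pool.Agent.W500.Ud.Geo2c.main Pool.Agent.W925.Ud.G3c.main

theorem t_geoPc : S_geoPc := Pool.Agent.W925.Ud.Geopc.main t_geoc

theorem t_thin4 : S_thin4 := Pool.Agent.W12.Ud.Thin4.main t_thin3

end Pool.Agent.W732.Ud
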